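import Pool.Agent.H33.VO.Near
import Pool.Agent.H33.NC.Transfer

/-!
# Maps between manifolds which are almost short and nearly do not decrease the volumes of small balls
-/

set_option autoImplicit false

open Set Filter Topology Metric Function MeasureTheory Measure
open scoped Manifold ContDiff ENNReal NNReal

noncomputable section

namespace Pool.Agent.H33.VO

open Pool.Agent.H33.NC
open Pool.Agent.Y522 (LD)
open Pool.Agent.H865_small (Imm CS)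

variable {n m k : ℕ} {X Y : Type} [TopologicalSpace X] [ChartedSpace (E n) X] [TopologicalSpace Y]
  [ChartedSpace (E n) Y]

/-- Lipschitz maps and Hausdorff measures -/
theorem lip_image {a b : ℕ} {f : E a → E b} {s : Set (E a)} {K : ℝ} (hK : 0 ≤ K)
    (h : ∀ x ∈ s, ∀ y ∈ s, ‖f x - f y‖ ≤ K * ‖x - y‖) :
    (μH[n] : Measure (E b)) (f '' s) ≤ ENNReal.ofReal (K ^ n) * (μH[n] : Measure (E a)) s := by
  have h1 : LipschitzOnWith K.toNNReal f s := by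
    refine LipschitzOnWith.of_dist_le_mul fun p hp q hq => ?_
    rw [Real.coe_toNNReal K hK, dist_eq_norm, dist_eq_norm]
    exact h p hp q hq
  have h2 := h1.hausdorffMeasure_image_le (d := n) (Nat.cast_nonneg n)
  rw [ENNReal.rpow_natCast] at h2
  rw [ENNReal.ofReal_pow hK]
  exact h2

/-- near `x`, for small `s ∈ S`, the map is almost short up to a factor and nearly does not decrease the volume of
the ball of radius `s` -/
def Vol (n : ℕ) (e : X → E m) (f : X → E k) (S : Set ℝ) (δ : ℝ) (x : X) : Prop :=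
  ∃ U ∈ 𝓝 x, ∃ r : ℝ, 0 < r ∧ ∀ y ∈ U, ∀ s ∈ S, 0 < s → s < r → ∃ κ : ℝ, 0 < κ ∧
    (∀ u w : X, ‖e u - e y‖ < s → ‖e w - e y‖ < s → κ * ‖f u - f w‖ ≤ ‖e u - e w‖ + δ * s) ∧
    ENNReal.ofReal (1 - δ) * (μH[n] : Measure (E m)) (e '' {u | ‖e u - e y‖ < s}) ≤
      ENNReal.ofReal (κ ^ n) * (μH[n] : Measure (E k)) (f '' {u | ‖e u - e y‖ < s})

theorem cs_of_vol (n : ℕ) {ε : ℝ} (hε : 0 < ε) : ∃ δ : ℝ, 0 < δ ∧
    ∀ (m k : ℕ) (X Y : Type) [TopologicalSpace X] [ChartedSpace (E n) X] [TopologicalSpace Y] [ChartedSpace (E n) Y]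
      [IsManifold (𝓡 n) ∞ X] [IsManifold (𝓡 n) ∞ Y] (e : X → E m) (j : Y → E k) (g : X → Y) (x : X) (S : Set ℝ),
      Imm (n := n) e x → Imm (n := n) j (g x) → ContinuousAt g x →
      (∀ V ∈ 𝓝 x, ∃ η : ℝ, 0 < η ∧ ∀ u, ‖e u - e x‖ < η → u ∈ V) → Vol n e (fun y => j (g y)) S δ x →
      CS e (fun y => j (g y)) {t | 4 * t ∈ S} ε x := by
  obtain ⟨δ0, hδ0, hnear⟩ := near_vol n (show 0 < ε / 8 by positivity)
  refine ⟨δ0 / 4, by positivity, ?_⟩
  intro m k X Y _ _ _ _ _ _ e j g x S he hj hg hin0 hvol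
  obtain ⟨U0, hU0, r0, hr0, hrd⟩ := hvol
  -- the distortion of the parametrizations
  obtain ⟨θ, hθ, hθh, hθδ, hθε, hθΛ⟩ : ∃ θ : ℝ, 0 < θ ∧ θ ≤ 1 / 4 ∧ θ * (16 * (1 + δ0)) ≤ δ0 ∧
      θ * (8 * (8 + ε)) ≤ ε ∧ ((1 + 2 * θ) * (1 + θ) / (1 - θ)) ^ n ≤ 1 + δ0 / 2 := by
    have h1 : ∀ᶠ θ in 𝓝 (0 : ℝ), ((1 + 2 * θ) * (1 + θ) / (1 - θ)) ^ n < 1 + δ0 / 2 := by
      have h2 : ContinuousAt (fun θ : ℝ => ((1 + 2 * θ) * (1 + θ) / (1 - θ)) ^ n) 0 := by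
        refine ContinuousAt.pow (ContinuousAt.div (by fun_prop) (by fun_prop) (by norm_num)) n
      refine h2.eventually_lt continuousAt_const ?_
      norm_num
      positivity
    have h2 : ∀ᶠ θ in 𝓝 (0 : ℝ), θ < min (1 / 4) (min (δ0 / (16 * (1 + δ0))) (ε / (8 * (8 + ε)))) :=
      Iio_mem_nhds (by positivity)
    obtain ⟨θ, ⟨h3, h4⟩, h5⟩ := (((h1.and h2).filter_mono nhdsWithin_le_nhds).and
      (self_mem_nhdsWithin (s := Ioi (0 : ℝ)))).exists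
    refine ⟨θ, h5, (h4.le.trans (min_le_left _ _)), ?_, ?_, h3.le⟩
    · have h6 := h4.le.trans ((min_le_right _ _).trans (min_le_left _ _))
      rwa [le_div_iff₀ (by positivity)] at h6
    · have h6 := h4.le.trans ((min_le_right _ _).trans (min_le_right _ _))
      rwa [le_div_iff₀ (by positivity)] at h6
  obtain ⟨A, hA0, hA, t1, ht1, hAe⟩ := exists_param (n := n) he hθ
  obtain ⟨B, hB0, hB, t2, ht2, hBj⟩ := exists_param (n := n) hj hθ
  -- the map in the parametrizations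
  have hev : ∀ᶠ z in 𝓝 (0 : E n), A z ∈ U0 ∧ g (A z) ∈ B '' ball 0 t2 := by
    have h1 : Tendsto A (𝓝 0) (𝓝 x) := by
      have := (hA 0).continuousAt.tendsto
      rwa [hA0] at this
    have h2 : B '' ball 0 t2 ∈ 𝓝 (g x) := by
      have := (hB 0).image_mem_nhds (ball_mem_nhds (0 : E n) ht2)
      rwa [hB0] at this
    exact (h1.eventually hU0).and ((hg.tendsto.comp h1).eventually h2)
  obtain ⟨ρ', hρ', hρ'2⟩ := Metric.eventually_nhds_iff.1 hev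
  obtain ⟨ρ, hρd⟩ : ∃ ρ : ℝ, ρ = min ρ' t1 := ⟨_, rfl⟩
  have hρ : 0 < ρ := by rw [hρd]; exact lt_min hρ' ht1
  have hin : ∀ z : E n, ‖z‖ < ρ → A z ∈ U0 ∧ ∃ y : E n, ‖y‖ < t2 ∧ B y = g (A z) := by
    intro z hz
    have h1 := hρ'2 (y := z) (by rw [dist_zero_right]; exact hz.trans_le (by rw [hρd]; exact min_le_left _ _))
    obtain ⟨h2, y, hy, hy2⟩ := h1
    exact ⟨h2, y, mem_ball_zero_iff.1 hy, hy2⟩
  have hex : ∀ z : E n, ∃ y : E n, ‖z‖ < ρ → ‖y‖ < t2 ∧ B y = g (A z) := by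
    intro z
    by_cases hz : ‖z‖ < ρ
    · obtain ⟨y, hy⟩ := (hin z hz).2
      exact ⟨y, fun _ => hy⟩
    · exact ⟨0, fun h => absurd h hz⟩
  choose h hh using hex
  have hAe' : ∀ z z' : E n, ‖z‖ < ρ → ‖z'‖ < ρ → |‖e (A z) - e (A z')‖ - ‖z - z'‖| ≤ θ * ‖z - z'‖ := by
    intro z z' hz hz'
    refine hAe z z' (hz.trans_le ?_) (hz'.trans_le ?_) <;> rw [hρd] <;> exact min_le_right _ _
  have hfh : ∀ z z' : E n, ‖z‖ < ρ → ‖z'‖ < ρ →
      |‖j (g (A z)) - j (g (A z'))‖ - ‖h z - h z'‖| ≤ θ * ‖h z - h z'‖ := by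
    intro z z' hz hz'
    obtain ⟨h1, h2⟩ := hh z hz
    obtain ⟨h3, h4⟩ := hh z' hz'
    rw [← h2, ← h4]
    exact hBj _ _ h1 h3
  obtain ⟨η, hη, hηV⟩ := hin0 (A '' ball 0 ρ) (by
    have := (hA 0).image_mem_nhds (ball_mem_nhds (0 : E n) hρ)
    rwa [hA0] at this)
  obtain ⟨ρ2, hρ2d⟩ : ∃ ρ2 : ℝ, ρ2 = min (ρ / 2) (η / 4) := ⟨_, rfl⟩
  have hρ2 : 0 < ρ2 := by rw [hρ2d]; positivity
  have hρ2a : ρ2 ≤ ρ / 2 := by rw [hρ2d]; exact min_le_left _ _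
  have hρ2b : ρ2 ≤ η / 4 := by rw [hρ2d]; exact min_le_right _ _
  refine ⟨A '' ball 0 ρ2, ?_, min r0 (min (ρ / 4) (η / 2)) / 4, by positivity, ?_⟩
  · have := (hA 0).image_mem_nhds (ball_mem_nhds (0 : E n) hρ2)
    rwa [hA0] at this
  rintro y ⟨ζ, hζ, rfl⟩ t ht ht0 htr
  rw [mem_ball_zero_iff] at hζ
  obtain ⟨s, hs⟩ : ∃ s : ℝ, s = 4 * t := ⟨_, rfl⟩
  have hs0 : 0 < s := by rw [hs]; positivity
  have hsS : s ∈ S := by rw [hs]; exact ht
  have hsr : s < min r0 (min (ρ / 4) (η / 2)) := by rw [hs]; linarith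
  have hsr0 : s < r0 := hsr.trans_le (min_le_left _ _)
  have hsρ : s < ρ / 4 := hsr.trans_le ((min_le_right _ _).trans (min_le_left _ _))
  have hsη : s < η / 2 := hsr.trans_le ((min_le_right _ _).trans (min_le_right _ _))
  have hζρ : ‖ζ‖ < ρ := by linarith
  obtain ⟨κ, hκ, hκ1, hκ2⟩ := hrd (A ζ) (hin ζ hζρ).1 s hsS hs0 hsr0
  have hball : ∀ p : E n, ‖p‖ ≤ 2 → ‖ζ + s • p‖ < ρ := by
    intro p hp
    have h1 : ‖ζ + s • p‖ ≤ ‖ζ‖ + s * 2 := by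
      refine (norm_add_le _ _).trans ?_
      rw [norm_smul, Real.norm_eq_abs, abs_of_pos hs0]
      gcongr
    linarith
  obtain ⟨P, hP⟩ : ∃ P : Set (E n), P = {p | ‖ζ + s • p‖ < ρ ∧ ‖e (A (ζ + s • p)) - e (A ζ)‖ < s} := ⟨_, rfl⟩
  obtain ⟨F, hF⟩ : ∃ F : E n → E n, ∀ p, F p = (κ / s) • h (ζ + s • p) := ⟨_, fun _ => rfl⟩
  have hsub : ∀ p q : E n, ‖(ζ + s • p) - (ζ + s • q)‖ = s * ‖p - q‖ := by
    intro p q
    rw [add_sub_add_left_eq_sub, ← smul_sub, norm_smul, Real.norm_eq_abs, abs_of_pos hs0]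
  have hsub0 : ∀ p : E n, ‖(ζ + s • p) - ζ‖ = s * ‖p‖ := by
    intro p
    rw [add_sub_cancel_left, norm_smul, Real.norm_eq_abs, abs_of_pos hs0]
  have hBP : {u | ‖e u - e (A ζ)‖ < s} = (fun p : E n => A (ζ + s • p)) '' P := by
    ext u
    constructor
    · intro hu
      have hu' : ‖e u - e (A ζ)‖ < s := hu
      have h1 : ‖e (A ζ) - e x‖ ≤ 2 * ‖ζ‖ := by
        have h2 := (abs_le.1 (hAe' ζ 0 hζρ (by rwa [norm_zero]))).2
        rw [hA0, sub_zero] at h2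
        nlinarith [norm_nonneg ζ]
      obtain ⟨z, hz, rfl⟩ := hηV u (by
        have h2 := norm_sub_le_norm_sub_add_norm_sub (e u) (e (A ζ)) (e x)
        linarith)
      rw [mem_ball_zero_iff] at hz
      have h3 : ζ + s • (s⁻¹ • (z - ζ)) = z := by
        rw [smul_smul, mul_inv_cancel₀ hs0.ne', one_smul]
        abel
      refine ⟨s⁻¹ • (z - ζ), ?_, by
        show A (ζ + s • (s⁻¹ • (z - ζ))) = A z
        rw [h3]⟩
      rw [hP]
      refine ⟨?_, ?_⟩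
      · rw [h3]; exact hz
      · rw [h3]; exact hu'
    · rintro ⟨p, hp, rfl⟩
      rw [hP] at hp
      exact hp.2
  have hP1 : ∀ p : E n, ‖p‖ ≤ 1 - δ0 → p ∈ P := by
    intro p hp
    have hp1 : ‖p‖ ≤ 2 := by linarith
    rw [hP]
    refine ⟨hball p hp1, ?_⟩
    have h1 := (abs_le.1 (hAe' _ _ (hball p hp1) hζρ)).2
    rw [hsub0] at h1
    have h2 : (1 + θ) * ‖p‖ < 1 := by nlinarith [norm_nonneg p]
    nlinarith [norm_nonneg p]
  have hP2' : ∀ p ∈ P, (1 - θ) * ‖p‖ ≤ 1 := by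
    intro p hp
    rw [hP] at hp
    have h1 := (abs_le.1 (hAe' _ _ hp.1 hζρ)).1
    rw [hsub0] at h1
    have h2 := hp.2
    have h3 : s * ((1 - θ) * ‖p‖) ≤ s * 1 := by nlinarith
    exact le_of_mul_le_mul_left h3 hs0
  have hP2 : ∀ p ∈ P, ‖p‖ ≤ 1 + δ0 := by
    intro p hp
    have h1 := hP2' p hp
    have h2 : (1 : ℝ) ≤ (1 - θ) * (1 + δ0) := by nlinarith
    have h3 : (1 - θ) * ‖p‖ ≤ (1 - θ) * (1 + δ0) := h1.trans h2
    exact le_of_mul_le_mul_left h3 (by linarith)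
  have hFn : ∀ p q : E n, ‖F p - F q‖ = κ / s * ‖h (ζ + s • p) - h (ζ + s • q)‖ := by
    intro p q
    rw [hF, hF, ← smul_sub, norm_smul, Real.norm_eq_abs, abs_of_pos (by positivity)]
  have hF1 : ∀ p ∈ P, ∀ q ∈ P, ‖F p - F q‖ ≤ ‖p - q‖ + δ0 := by
    intro p hp q hq
    have hp2 := hP2 p hp
    have hq2 := hP2 q hq
    rw [hP] at hp hq
    have h1 := hκ1 (A (ζ + s • p)) (A (ζ + s • q)) hp.2 hq.2
    have h2 := (abs_le.1 (hfh _ _ hp.1 hq.1)).1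
    have h3 := (abs_le.1 (hAe' _ _ hp.1 hq.1)).2
    rw [hsub] at h3
    obtain ⟨a, ha⟩ : ∃ a : ℝ, a = ‖h (ζ + s • p) - h (ζ + s • q)‖ := ⟨_, rfl⟩
    obtain ⟨b, hb⟩ : ∃ b : ℝ, b = ‖p - q‖ := ⟨_, rfl⟩
    have hb2 : b ≤ 2 * (1 + δ0) := by rw [hb]; linarith [norm_sub_le p q]
    have hb0 : 0 ≤ b := by rw [hb]; exact norm_nonneg _
    rw [hFn, ← ha, ← hb]
    rw [← ha] at h2
    rw [← hb] at h3
    have h4 : κ * ((1 - θ) * a) ≤ κ * ‖j (g (A (ζ + s • p))) - j (g (A (ζ + s • q)))‖ :=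
      mul_le_mul_of_nonneg_left (by linarith) hκ.le
    have h5 : (1 - θ) * (κ * a) ≤ s * ((1 + θ) * b + δ0 / 4) := by nlinarith
    have h6 : (1 + θ) * b + δ0 / 4 ≤ (1 - θ) * (b + δ0) := by nlinarith
    have h7 : (1 - θ) * (κ * a) ≤ (1 - θ) * (s * (b + δ0)) := by nlinarith
    have h8 : κ * a ≤ s * (b + δ0) := le_of_mul_le_mul_left h7 (by linarith)
    rw [div_mul_eq_mul_div, div_le_iff₀ hs0]
    linarith
  -- the volumes
  have hV1 : mu n P ≤ ENNReal.ofReal ((1 / (s * (1 - θ))) ^ n) *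
      (μH[n] : Measure (E m)) (e '' {u | ‖e u - e (A ζ)‖ < s}) := by
    rw [hBP, image_image]
    have hinj : ∀ p ∈ P, ∀ q ∈ P, ‖p - q‖ ≤ 1 / (s * (1 - θ)) * ‖e (A (ζ + s • p)) - e (A (ζ + s • q))‖ := by
      intro p hp q hq
      rw [hP] at hp hq
      have h1 := (abs_le.1 (hAe' _ _ hp.1 hq.1)).1
      rw [hsub] at h1
      have h2 : 0 < s * (1 - θ) := mul_pos hs0 (by linarith)
      rw [div_mul_eq_mul_div, one_mul, le_div_iff₀ h2]
      linarith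
    have hinjOn : InjOn (fun p : E n => e (A (ζ + s • p))) P := by
      intro p hp q hq hpq
      have h1 := hinj p hp q hq
      have h2 : e (A (ζ + s • p)) = e (A (ζ + s • q)) := hpq
      rw [h2, sub_self, norm_zero, mul_zero] at h1
      exact sub_eq_zero.1 (norm_le_zero_iff.1 h1)
    obtain ⟨Q, hQ⟩ : ∃ Q : E m → E n, ∀ p ∈ P, Q (e (A (ζ + s • p))) = p :=
      ⟨invFunOn (fun p : E n => e (A (ζ + s • p))) P, fun p hp => hinjOn.leftInvOn_invFunOn hp⟩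
    have h1 : P = Q '' ((fun p : E n => e (A (ζ + s • p))) '' P) := by
      rw [image_image]
      ext p
      constructor
      · intro hp
        exact ⟨p, hp, hQ p hp⟩
      · rintro ⟨q, hq, rfl⟩
        show Q (e (A (ζ + s • q))) ∈ P
        rw [hQ q hq]
        exact hq
    have h2 : 0 ≤ 1 / (s * (1 - θ)) := by
      have : 0 < s * (1 - θ) := mul_pos hs0 (by linarith)
      positivity
    have h3 := lip_image (n := n) (f := Q) (s := (fun p : E n => e (A (ζ + s • p))) '' P) h2 (by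
      rintro _ ⟨p, hp, rfl⟩ _ ⟨q, hq, rfl⟩
      show ‖Q (e (A (ζ + s • p))) - Q (e (A (ζ + s • q)))‖ ≤ _
      rw [hQ p hp, hQ q hq]
      exact hinj p hp q hq)
    rw [← h1] at h3
    exact h3
  have hV2 : (μH[n] : Measure (E k)) ((fun y => j (g y)) '' {u | ‖e u - e (A ζ)‖ < s}) ≤
      ENNReal.ofReal (((1 + θ) * s / κ) ^ n) * mu n (F '' P) := by
    rw [hBP, image_image]
    have h1 : (fun p : E n => j (g (A (ζ + s • p)))) '' P = (fun q : E n => j (B ((s / κ) • q))) '' (F '' P) := by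
      rw [image_image]
      refine image_congr fun p hp => ?_
      rw [hP] at hp
      show j (g (A (ζ + s • p))) = j (B ((s / κ) • F p))
      rw [hF, smul_smul, show s / κ * (κ / s) = 1 by field_simp, one_smul, (hh _ hp.1).2]
    rw [h1]
    refine lip_image (n := n) (by positivity) ?_
    rintro _ ⟨p, hp, rfl⟩ _ ⟨q, hq, rfl⟩
    rw [hP] at hp hq
    have e1 : (s / κ) • F p = h (ζ + s • p) := by
      rw [hF, smul_smul, show s / κ * (κ / s) = 1 by field_simp, one_smul]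
    have e2 : (s / κ) • F q = h (ζ + s • q) := by
      rw [hF, smul_smul, show s / κ * (κ / s) = 1 by field_simp, one_smul]
    rw [hFn]
    show ‖j (B ((s / κ) • F p)) - j (B ((s / κ) • F q))‖ ≤ _
    rw [e1, e2]
    have h2 := (abs_le.1 (hBj _ _ (hh _ hp.1).1 (hh _ hq.1).1)).2
    have h3 : (1 + θ) * s / κ * (κ / s * ‖h (ζ + s • p) - h (ζ + s • q)‖) =
        (1 + θ) * ‖h (ζ + s • p) - h (ζ + s • q)‖ := by field_simp
    rw [h3]
    linarith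
  have hV3 : mu n (closedBall 0 1) ≤ ENNReal.ofReal ((1 + 2 * θ) ^ n) * mu n P := by
    have h1 : closedBall (0 : E n) 1 ⊆ (fun p : E n => (1 + 2 * θ) • p) '' P := by
      intro q hq
      rw [mem_closedBall_zero_iff] at hq
      have h2 : (0 : ℝ) < 1 + 2 * θ := by linarith
      have h3 : ‖(1 + 2 * θ)⁻¹ • q‖ ≤ (1 + 2 * θ)⁻¹ := by
        rw [norm_smul, Real.norm_eq_abs, abs_of_pos (inv_pos.2 h2)]
        calc (1 + 2 * θ)⁻¹ * ‖q‖ ≤ (1 + 2 * θ)⁻¹ * 1 := by gcongr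
          _ = _ := mul_one _
      have h4 : (1 + 2 * θ)⁻¹ ≤ 1 := inv_le_one_of_one_le₀ (by linarith)
      refine ⟨(1 + 2 * θ)⁻¹ • q, ?_, by
        show (1 + 2 * θ) • ((1 + 2 * θ)⁻¹ • q) = q
        rw [smul_smul, mul_inv_cancel₀ h2.ne', one_smul]⟩
      rw [hP]
      refine ⟨hball _ (by linarith), ?_⟩
      have h5 := (abs_le.1 (hAe' _ _ (hball ((1 + 2 * θ)⁻¹ • q) (by linarith)) hζρ)).2
      rw [hsub0] at h5
      have h6 : (1 + θ) * (1 + 2 * θ)⁻¹ < 1 := by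
        rw [← div_eq_mul_inv, div_lt_one h2]
        linarith
      have h7 : (1 + θ) * ‖(1 + 2 * θ)⁻¹ • q‖ < 1 := lt_of_le_of_lt (by gcongr) h6
      nlinarith
    refine (measure_mono h1).trans (lip_image (n := n) (by linarith) ?_)
    intro p _ q _
    show ‖(1 + 2 * θ) • p - (1 + 2 * θ) • q‖ ≤ _
    rw [← smul_sub, norm_smul, Real.norm_eq_abs, abs_of_pos (by linarith)]
  have hFV : ENNReal.ofReal (1 - δ0) * mu n (closedBall 0 1) ≤ mu n (F '' P) := by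
    have hθ1 : 0 < 1 - θ := by linarith
    obtain ⟨Λ, hΛ⟩ : ∃ Λ : ℝ, Λ = (1 + 2 * θ) * (1 + θ) / (1 - θ) := ⟨_, rfl⟩
    rw [← hΛ] at hθΛ
    have hΛ0 : 0 < Λ := by rw [hΛ]; positivity
    have c1 : ENNReal.ofReal (1 - δ0 / 4) * mu n (closedBall 0 1) ≤ ENNReal.ofReal (Λ ^ n) * mu n (F '' P) := by
      calc ENNReal.ofReal (1 - δ0 / 4) * mu n (closedBall 0 1)
          ≤ ENNReal.ofReal (1 - δ0 / 4) * (ENNReal.ofReal ((1 + 2 * θ) ^ n) *
            (ENNReal.ofReal ((1 / (s * (1 - θ))) ^ n) *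
              (μH[n] : Measure (E m)) (e '' {u | ‖e u - e (A ζ)‖ < s}))) := by
            exact mul_le_mul' le_rfl (hV3.trans (mul_le_mul' le_rfl hV1))
        _ = ENNReal.ofReal ((1 + 2 * θ) ^ n) * ENNReal.ofReal ((1 / (s * (1 - θ))) ^ n) *
            (ENNReal.ofReal (1 - δ0 / 4) * (μH[n] : Measure (E m)) (e '' {u | ‖e u - e (A ζ)‖ < s})) := by ring
        _ ≤ ENNReal.ofReal ((1 + 2 * θ) ^ n) * ENNReal.ofReal ((1 / (s * (1 - θ))) ^ n) *
            (ENNReal.ofReal (κ ^ n) * (ENNReal.ofReal (((1 + θ) * s / κ) ^ n) * mu n (F '' P))) := by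
            exact mul_le_mul' le_rfl (hκ2.trans (mul_le_mul' le_rfl hV2))
        _ = ENNReal.ofReal (Λ ^ n) * mu n (F '' P) := by
            rw [← ENNReal.ofReal_mul (by positivity), ← mul_assoc, ← mul_assoc,
              ← ENNReal.ofReal_mul (by positivity), ← ENNReal.ofReal_mul (by positivity), ← mul_pow, ← mul_pow,
              ← mul_pow, hΛ]
            congr 3
            field_simp
    by_cases hc : 1 - δ0 ≤ 0
    · rw [ENNReal.ofReal_eq_zero.2 hc, zero_mul]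
      exact zero_le
    · push Not at hc
      have c2 : (1 - δ0) * Λ ^ n ≤ 1 - δ0 / 4 := by
        calc (1 - δ0) * Λ ^ n ≤ (1 - δ0) * (1 + δ0 / 2) := mul_le_mul_of_nonneg_left hθΛ hc.le
          _ ≤ 1 - δ0 / 4 := by nlinarith
      have c3 : ENNReal.ofReal (Λ ^ n) * (ENNReal.ofReal (1 - δ0) * mu n (closedBall 0 1)) ≤
          ENNReal.ofReal (Λ ^ n) * mu n (F '' P) := by
        refine le_trans ?_ c1
        rw [← mul_assoc, ← ENNReal.ofReal_mul (by positivity), mul_comm (Λ ^ n)]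
        gcongr
      exact (ENNReal.mul_le_mul_iff_right (by
        rw [ne_eq, ENNReal.ofReal_eq_zero, not_le]; positivity) ENNReal.ofReal_ne_top).1 c3
  have hmain := hnear P F hP1 hP2 hF1 hFV
  refine ⟨κ, hκ.le, ?_⟩
  rintro u ⟨zu, hzu, rfl⟩ w ⟨zw, hzw, rfl⟩ hu hw
  rw [mem_ball_zero_iff] at hzu hzw
  have hzuρ : ‖zu‖ < ρ := by linarith
  have hzwρ : ‖zw‖ < ρ := by linarith
  have hts : t = s / 4 := by rw [hs]; ring
  have hcl : ∀ z : E n, ‖z‖ < ρ → ‖e (A z) - e (A ζ)‖ ≤ t → ‖s⁻¹ • (z - ζ)‖ ≤ 1 / 3 := by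
    intro z hz hze
    have h1 := (abs_le.1 (hAe' z ζ hz hζρ)).1
    rw [norm_smul, Real.norm_eq_abs, abs_of_pos (inv_pos.2 hs0), inv_mul_eq_div, div_le_iff₀ hs0]
    rw [hts] at hze
    nlinarith [norm_nonneg (z - ζ)]
  have hpz : ∀ z : E n, ζ + s • s⁻¹ • (z - ζ) = z := by
    intro z
    rw [smul_smul, mul_inv_cancel₀ hs0.ne', one_smul]
    abel
  have h1 := hmain _ _ (hcl zu hzuρ hu) (hcl zw hzwρ hw)
  rw [hFn, hpz, hpz, ← smul_sub, sub_sub_sub_cancel_right, norm_smul, Real.norm_eq_abs,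
    abs_of_pos (inv_pos.2 hs0)] at h1
  have h2 : |κ * ‖h zu - h zw‖ - ‖zu - zw‖| ≤ ε / 8 * s := by
    have h3 : κ * ‖h zu - h zw‖ - ‖zu - zw‖ = s * (κ / s * ‖h zu - h zw‖ - s⁻¹ * ‖zu - zw‖) := by
      field_simp
    rw [h3, abs_mul, abs_of_pos hs0, mul_comm (ε / 8)]
    exact mul_le_mul_of_nonneg_left h1 hs0.le
  have h3 := hfh zu zw hzuρ hzwρ
  have h4 := hAe' zu zw hzuρ hzwρ
  have h5 : ‖zu - zw‖ ≤ s := by
    have h6 := hcl zu hzuρ hu
    have h7 := hcl zw hzwρ hw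
    rw [norm_smul, Real.norm_eq_abs, abs_of_pos (inv_pos.2 hs0), inv_mul_eq_div, div_le_iff₀ hs0] at h6 h7
    have h8 := norm_sub_le_norm_sub_add_norm_sub zu ζ zw
    rw [norm_sub_rev ζ zw] at h8
    linarith
  have h6 : κ * ‖h zu - h zw‖ ≤ (1 + ε / 8) * s := by
    have := (abs_le.1 h2).2
    linarith
  have h7 : |κ * ‖j (g (A zu)) - j (g (A zw))‖ - κ * ‖h zu - h zw‖| ≤ θ * ((1 + ε / 8) * s) := by
    rw [← mul_sub, abs_mul, abs_of_nonneg hκ.le]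
    calc κ * |‖j (g (A zu)) - j (g (A zw))‖ - ‖h zu - h zw‖| ≤ κ * (θ * ‖h zu - h zw‖) :=
          mul_le_mul_of_nonneg_left h3 hκ.le
      _ = θ * (κ * ‖h zu - h zw‖) := by ring
      _ ≤ θ * ((1 + ε / 8) * s) := mul_le_mul_of_nonneg_left h6 hθ.le
  have h8 : |‖e (A zu) - e (A zw)‖ - ‖zu - zw‖| ≤ θ * s := h4.trans (mul_le_mul_of_nonneg_left h5 hθ.le)
  have h9 : θ * ((1 + ε / 8) * s) + θ * s ≤ ε / 8 * s := by
    have : θ * (1 + ε / 8) + θ ≤ ε / 8 := by nlinarith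
    nlinarith
  have h10 : ε * t = ε / 4 * s := by rw [hts]; ring
  show |κ * ‖j (g (A zu)) - j (g (A zw))‖ - ‖e (A zu) - e (A zw)‖| ≤ ε * t
  rw [h10]
  rw [abs_le] at h2 h7 h8 ⊢
  constructor <;> linarith [h2.1, h2.2, h7.1, h7.2, h8.1, h8.2]

end Pool.Agent.H33.VO
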