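import Pool.Agent.H33.NC.Near

/-!
# Almost short maps which nearly do not decrease the volume of the unit ball

A map of the unit ball which does not increase distances and whose image has at least the volume of the ball is an
isometry, and the quantitative version.
-/

set_option autoImplicit false

open Set Filter Topology Metric MeasureTheory Measure
open scoped ENNReal NNReal

noncomputable section

namespace Pool.Agent.H33.VO

open Pool.Agent.H33.NC (E UU UU_le)

variable {n : ℕ}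

/-- the Hausdorff measure -/
abbrev mu (n : ℕ) : Measure (E n) := μH[n]

instance : IsAddHaarMeasure (mu n) := by
  have h := isAddHaarMeasure_hausdorffMeasure (E := E n)
  rw [finrank_euclideanSpace_fin] at h
  exact h

/-- maps which do not increase distances do not increase the measure -/
theorem short_image {G : E n → E n} {A : Set (E n)} (hL : ∀ p ∈ A, ∀ q ∈ A, ‖G p - G q‖ ≤ ‖p - q‖) :
    mu n (G '' A) ≤ mu n A := by
  have h1 : LipschitzOnWith 1 G A := by
    refine LipschitzOnWith.of_dist_le_mul fun p hp q hq => ?_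
    rw [NNReal.coe_one, one_mul, dist_eq_norm, dist_eq_norm]
    exact hL p hp q hq
  have h2 := h1.hausdorffMeasure_image_le (d := n) (Nat.cast_nonneg n)
  simpa using h2

/-- a map of the unit ball which does not increase distances and whose image has at least the measure of the ball is
isometric on a smaller ball -/
theorem isom_of {G : E n → E n} (hL : ∀ p q : E n, ‖p‖ ≤ 1 → ‖q‖ ≤ 1 → ‖G p - G q‖ ≤ ‖p - q‖)
    (hV : mu n (closedBall 0 1) ≤ mu n (G '' closedBall 0 1)) {u w : E n} (hu : ‖u‖ ≤ 1 / 3) (hw : ‖w‖ ≤ 1 / 3) :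
    ‖G u - G w‖ = ‖u - w‖ := by
  refine le_antisymm (hL u w (by linarith) (by linarith)) ?_
  by_contra hcon
  push Not at hcon
  obtain ⟨ρ, hρ⟩ : ∃ ρ : ℝ, ρ = ‖u - w‖ / 2 := ⟨_, rfl⟩
  have hρ0 : 0 < ρ := by
    rw [hρ]
    have := norm_nonneg (G u - G w)
    linarith
  have hρ1 : ρ ≤ 1 / 3 := by
    rw [hρ]
    linarith [norm_sub_le u w]
  obtain ⟨A, hA⟩ : ∃ A : Set (E n), A = ball u ρ ∪ ball w ρ := ⟨_, rfl⟩
  have hdis : Disjoint (ball u ρ) (ball w ρ) := by
    refine ball_disjoint_ball ?_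
    rw [dist_eq_norm, hρ]
    linarith
  have hbs : ∀ v : E n, ‖v‖ ≤ 1 / 3 → ball v ρ ⊆ closedBall (0 : E n) 1 := by
    intro v hv z hz
    rw [mem_ball_iff_norm] at hz
    rw [mem_closedBall_zero_iff]
    have h1 := norm_add_le (z - v) v
    rw [sub_add_cancel] at h1
    linarith
  have hAs : A ⊆ closedBall (0 : E n) 1 := by
    rw [hA]
    exact union_subset (hbs u hu) (hbs w hw)
  have hAm : MeasurableSet A := by rw [hA]; exact measurableSet_ball.union measurableSet_ball
  have hfin : ∀ (v : E n) (t : ℝ), mu n (ball v t) ≠ ∞ := fun v t => measure_ball_lt_top.ne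
  have hfinc : mu n (closedBall (0 : E n) 1) ≠ ∞ := measure_closedBall_lt_top.ne
  have hGA : mu n A ≤ mu n (G '' A) := by
    have h1 : mu n (G '' closedBall 0 1) ≤ mu n (G '' A) + mu n (G '' (closedBall 0 1 \ A)) := by
      have h2 : G '' closedBall 0 1 = G '' A ∪ G '' (closedBall 0 1 \ A) := by
        rw [← image_union, union_sdiff_cancel hAs]
      rw [h2]
      exact measure_union_le _ _
    have h2 : mu n (G '' (closedBall 0 1 \ A)) ≤ mu n (closedBall 0 1 \ A) := by
      refine short_image fun p hp q hq => hL p q ?_ ?_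
      · exact mem_closedBall_zero_iff.1 hp.1
      · exact mem_closedBall_zero_iff.1 hq.1
    have h3 : mu n (closedBall (0 : E n) 1) = mu n A + mu n (closedBall 0 1 \ A) := by
      rw [← measure_union disjoint_sdiff_right (measurableSet_closedBall.diff hAm), union_sdiff_cancel hAs]
    have h4 : mu n A + mu n (closedBall 0 1 \ A) ≤ mu n (G '' A) + mu n (closedBall 0 1 \ A) := by
      rw [← h3]
      exact hV.trans (h1.trans (by gcongr))
    have h5 : mu n (closedBall (0 : E n) 1 \ A) ≠ ∞ := ne_top_of_le_ne_top hfinc (measure_mono sdiff_subset)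
    exact (ENNReal.add_le_add_iff_right h5).1 h4
  have hGs : G '' A ⊆ ball (G u) ρ ∪ ball (G w) ρ := by
    rw [hA, image_union]
    refine union_subset_union ?_ ?_
    · rintro _ ⟨z, hz, rfl⟩
      have hz1 := mem_closedBall_zero_iff.1 (hbs u hu hz)
      rw [mem_ball_iff_norm] at hz ⊢
      exact (hL z u hz1 (by linarith)).trans_lt hz
    · rintro _ ⟨z, hz, rfl⟩
      have hz1 := mem_closedBall_zero_iff.1 (hbs w hw hz)
      rw [mem_ball_iff_norm] at hz ⊢
      exact (hL z w hz1 (by linarith)).trans_lt hz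
  have hball : ∀ v v' : E n, mu n (ball v ρ) = mu n (ball v' ρ) := fun v v' => by
    rw [addHaar_ball_center (mu n) v ρ, addHaar_ball_center (mu n) v' ρ]
  have hint : mu n (ball (G u) ρ ∩ ball (G w) ρ) = 0 := by
    have h1 : mu n (ball (G u) ρ ∪ ball (G w) ρ) + mu n (ball (G u) ρ ∩ ball (G w) ρ) =
        mu n (ball (G u) ρ) + mu n (ball (G w) ρ) := measure_union_add_inter _ measurableSet_ball
    have h2 : mu n (ball (G u) ρ) + mu n (ball (G w) ρ) = mu n A := by
      rw [hA, measure_union hdis measurableSet_ball, hball (G u) u, hball (G w) w]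
    have h3 : mu n A ≤ mu n (ball (G u) ρ ∪ ball (G w) ρ) := hGA.trans (measure_mono hGs)
    have h4 : mu n A + mu n (ball (G u) ρ ∩ ball (G w) ρ) ≤ mu n A + 0 := by
      rw [add_zero]
      calc mu n A + mu n (ball (G u) ρ ∩ ball (G w) ρ) ≤
            mu n (ball (G u) ρ ∪ ball (G w) ρ) + mu n (ball (G u) ρ ∩ ball (G w) ρ) := by gcongr
        _ = mu n A := by rw [h1, h2]
    have h5 : mu n A ≠ ∞ := ne_top_of_le_ne_top hfinc (measure_mono hAs)
    exact nonpos_iff_eq_zero.1 ((ENNReal.add_le_add_iff_left h5).1 h4)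
  have hmid : (1 / 2 : ℝ) • (G u + G w) ∈ ball (G u) ρ ∩ ball (G w) ρ := by
    have h1 : (1 / 2 : ℝ) • (G u + G w) - G u = -((1 / 2 : ℝ) • (G u - G w)) := by module
    have h2 : (1 / 2 : ℝ) • (G u + G w) - G w = (1 / 2 : ℝ) • (G u - G w) := by module
    constructor
    · rw [mem_ball_iff_norm, h1, norm_neg, norm_smul, Real.norm_eq_abs, abs_of_pos (by norm_num), hρ]
      linarith
    · rw [mem_ball_iff_norm, h2, norm_smul, Real.norm_eq_abs, abs_of_pos (by norm_num), hρ]
      linarith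
  exact ((isOpen_ball.inter isOpen_ball).measure_pos (mu n) ⟨_, hmid⟩).ne' hint

/-- **Almost short maps which nearly do not decrease the volume are almost isometric.** -/
theorem near_vol (n : ℕ) {ε : ℝ} (hε : 0 < ε) : ∃ δ : ℝ, 0 < δ ∧ ∀ (P : Set (E n)) (F : E n → E n),
    (∀ p : E n, ‖p‖ ≤ 1 - δ → p ∈ P) → (∀ p ∈ P, ‖p‖ ≤ 1 + δ) →
    (∀ p ∈ P, ∀ q ∈ P, ‖F p - F q‖ ≤ ‖p - q‖ + δ) →
    ENNReal.ofReal (1 - δ) * mu n (closedBall 0 1) ≤ mu n (F '' P) →
    ∀ u w : E n, ‖u‖ ≤ 1 / 3 → ‖w‖ ≤ 1 / 3 → |‖F u - F w‖ - ‖u - w‖| ≤ ε := by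
  by_contra hcon
  push Not at hcon
  have h1 := fun k : ℕ => hcon (1 / ((k : ℝ) + 2)) (by positivity)
  choose P F hP1 hP2 hF hV u w hu hw huw using h1
  obtain ⟨d, hd⟩ : ∃ d : ℕ → ℝ, ∀ k, d k = 1 / ((k : ℝ) + 2) := ⟨_, fun _ => rfl⟩
  simp only [← hd] at hP1 hP2 hF hV
  have hd0 : ∀ k, 0 < d k := fun k => by rw [hd]; positivity
  have hd1 : ∀ k, d k ≤ 1 / 2 := fun k => by
    rw [hd]
    exact one_div_le_one_div_of_le (by norm_num) (by linarith [(Nat.cast_nonneg k : (0 : ℝ) ≤ k)])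
  have hdl : Tendsto d UU (𝓝 0) := by
    have h2 : Tendsto (fun k : ℕ => 1 / ((k : ℝ) + 2)) atTop (𝓝 0) := by
      have h3 : Tendsto (fun k : ℕ => ((k : ℝ) + 2)) atTop atTop :=
        tendsto_atTop_add_const_right _ _ tendsto_natCast_atTop_atTop
      refine h3.inv_tendsto_atTop.congr fun k => ?_
      rw [one_div]
      rfl
    have h3 : d = fun k : ℕ => 1 / ((k : ℝ) + 2) := funext hd
    rw [h3]
    exact h2.mono_left UU_le
  have h0P : ∀ k, (0 : E n) ∈ P k := fun k => hP1 k 0 (by rw [norm_zero]; linarith [hd1 k])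
  -- the limit
  obtain ⟨c, hc⟩ : ∃ c : ℕ → E n → E n, ∀ k p, c k p = (1 - d k) • p := ⟨_, fun _ _ => rfl⟩
  have hcP : ∀ k p, ‖p‖ ≤ 1 → c k p ∈ P k := by
    intro k p hp
    refine hP1 k _ ?_
    rw [hc, norm_smul, Real.norm_eq_abs, abs_of_nonneg (by linarith [hd1 k])]
    calc (1 - d k) * ‖p‖ ≤ (1 - d k) * 1 := mul_le_mul_of_nonneg_left hp (by linarith [hd1 k])
      _ = 1 - d k := mul_one _
  have hcd : ∀ k p, ‖p‖ ≤ 1 → ‖c k p - p‖ ≤ d k := by
    intro k p hp
    have h2 : c k p - p = -(d k • p) := by rw [hc]; module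
    rw [h2, norm_neg, norm_smul, Real.norm_eq_abs, abs_of_pos (hd0 k)]
    calc d k * ‖p‖ ≤ d k * 1 := mul_le_mul_of_nonneg_left hp (hd0 k).le
      _ = d k := mul_one _
  have hlim : ∀ p : E n, ‖p‖ ≤ 1 → ∃ y : E n, Tendsto (fun k => F k (c k p) - F k 0) UU (𝓝 y) := by
    intro p hp
    have h2 := (isCompact_closedBall (0 : E n) 3).ultrafilter_le_nhds
      ((hyperfilter ℕ).map fun k => F k (c k p) - F k 0) (by
      rw [le_principal_iff]
      show ∀ᶠ k in UU, F k (c k p) - F k 0 ∈ closedBall (0 : E n) 3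
      refine Eventually.of_forall fun k => ?_
      rw [mem_closedBall_zero_iff]
      have h3 := hF k _ (hcP k p hp) 0 (h0P k)
      have h4 := hcd k p hp
      have h5 := norm_add_le (c k p - p) p
      rw [sub_add_cancel] at h5
      rw [sub_zero] at h3
      linarith [hd1 k])
    obtain ⟨y, _, hy⟩ := h2
    exact ⟨y, hy⟩
  have hlim' : ∀ p : E n, ∃ y : E n, ‖p‖ ≤ 1 → Tendsto (fun k => F k (c k p) - F k 0) UU (𝓝 y) := by
    intro p
    by_cases hp : ‖p‖ ≤ 1
    · obtain ⟨y, hy⟩ := hlim p hp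
      exact ⟨y, fun _ => hy⟩
    · exact ⟨0, fun h => absurd h hp⟩
  choose G hG using hlim'
  -- the limit of the values at a convergent sequence
  have hseq : ∀ (p : ℕ → E n) (p0 : E n), (∀ k, p k ∈ P k) → ‖p0‖ ≤ 1 → Tendsto p UU (𝓝 p0) →
      Tendsto (fun k => F k (p k) - F k 0) UU (𝓝 (G p0)) := by
    intro p p0 hpP hp0 hp
    have h2 : Tendsto (fun k => ‖p k - p0‖ + d k + d k) UU (𝓝 0) := by
      have h3 : Tendsto (fun k => ‖p k - p0‖) UU (𝓝 0) := by
        have := (hp.sub_const p0).norm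
        rwa [sub_self, norm_zero] at this
      have h4 := (h3.add hdl).add hdl
      rwa [add_zero, add_zero] at h4
    have h3 : Tendsto (fun k => (F k (p k) - F k 0) - (F k (c k p0) - F k 0)) UU (𝓝 0) := by
      refine squeeze_zero_norm (fun k => ?_) h2
      rw [sub_sub_sub_cancel_right]
      refine (hF k _ (hpP k) _ (hcP k p0 hp0)).trans ?_
      have h4 := norm_sub_le_norm_sub_add_norm_sub (p k) p0 (c k p0)
      have h5 := hcd k p0 hp0
      rw [norm_sub_rev] at h5
      linarith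
    have h4 := h3.add (hG p0 hp0)
    simpa using h4
  have hGL : ∀ p q : E n, ‖p‖ ≤ 1 → ‖q‖ ≤ 1 → ‖G p - G q‖ ≤ ‖p - q‖ := by
    intro p q hp hq
    have t1 : Tendsto (fun k => ‖(F k (c k p) - F k 0) - (F k (c k q) - F k 0)‖) UU (𝓝 ‖G p - G q‖) :=
      ((hG p hp).sub (hG q hq)).norm
    have t2 : Tendsto (fun k => ‖p - q‖ + d k) UU (𝓝 ‖p - q‖) := by
      have := hdl.const_add ‖p - q‖
      rwa [add_zero] at this
    refine le_of_tendsto_of_tendsto t1 t2 (Eventually.of_forall fun k => ?_)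
    show ‖(F k (c k p) - F k 0) - (F k (c k q) - F k 0)‖ ≤ ‖p - q‖ + d k
    rw [sub_sub_sub_cancel_right]
    refine (hF k _ (hcP k p hp) _ (hcP k q hq)).trans ?_
    have h4 : c k p - c k q = (1 - d k) • (p - q) := by rw [hc, hc]; module
    rw [h4, norm_smul, Real.norm_eq_abs, abs_of_nonneg (by linarith [hd1 k])]
    have h5 : (1 - d k) * ‖p - q‖ ≤ 1 * ‖p - q‖ := mul_le_mul_of_nonneg_right (by linarith [hd0 k]) (norm_nonneg _)
    linarith
  -- the images are close to the image of the limit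
  have hth : ∀ η : ℝ, 0 < η → ∀ᶠ k in UU, ∀ p ∈ P k, F k p - F k 0 ∈ thickening η (G '' closedBall 0 1) := by
    intro η hη
    by_contra hcon
    rw [← Ultrafilter.eventually_not] at hcon
    have h2 : ∀ k, ∃ p : E n, p ∈ P k ∧ ((¬ ∀ p ∈ P k, F k p - F k 0 ∈ thickening η (G '' closedBall 0 1)) →
        F k p - F k 0 ∉ thickening η (G '' closedBall 0 1)) := by
      intro k
      by_cases h : ∀ p ∈ P k, F k p - F k 0 ∈ thickening η (G '' closedBall 0 1)
      · exact ⟨0, h0P k, fun h' => absurd h h'⟩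
      · push Not at h
        obtain ⟨p, hp, hp2⟩ := h
        exact ⟨p, hp, fun _ => hp2⟩
    choose p hp hp2 using h2
    have h3 : ∃ p0 : E n, ‖p0‖ ≤ 1 ∧ Tendsto p UU (𝓝 p0) := by
      have h3 := (isCompact_closedBall (0 : E n) 2).ultrafilter_le_nhds ((hyperfilter ℕ).map p) (by
        rw [le_principal_iff]
        show ∀ᶠ k in UU, p k ∈ closedBall (0 : E n) 2
        exact Eventually.of_forall fun k => mem_closedBall_zero_iff.2 ((hP2 k _ (hp k)).trans (by linarith [hd1 k])))
      obtain ⟨y, _, hy⟩ := h3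
      refine ⟨y, ?_, hy⟩
      have t2 : Tendsto (fun k => 1 + d k) UU (𝓝 1) := by
        have := hdl.const_add 1
        rwa [add_zero] at this
      exact le_of_tendsto_of_tendsto (show Tendsto (fun k => ‖p k‖) UU (𝓝 ‖y‖) from (Tendsto.norm hy)) t2
        (Eventually.of_forall fun k => hP2 k _ (hp k))
    obtain ⟨p0, hp0, hpl⟩ := h3
    have h4 := hseq p p0 hp hp0 hpl
    have h5 : ∀ᶠ k in UU, F k (p k) - F k 0 ∈ thickening η (G '' closedBall 0 1) := by
      refine h4.eventually (isOpen_thickening.mem_nhds ?_)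
      exact self_subset_thickening hη _ ⟨p0, mem_closedBall_zero_iff.2 hp0, rfl⟩
    obtain ⟨k, hk1, hk2⟩ := (h5.and hcon).exists
    exact hp2 k hk2 hk1
  have hGc : IsCompact (G '' closedBall (0 : E n) 1) := by
    refine (isCompact_closedBall (0 : E n) 1).image_of_continuousOn ?_
    have h1 : LipschitzOnWith 1 G (closedBall 0 1) := by
      refine LipschitzOnWith.of_dist_le_mul fun p hp q hq => ?_
      rw [NNReal.coe_one, one_mul, dist_eq_norm, dist_eq_norm]
      exact hGL p q (mem_closedBall_zero_iff.1 hp) (mem_closedBall_zero_iff.1 hq)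
    exact h1.continuousOn
  have hVη : ∀ η : ℝ, 0 < η → mu n (closedBall (0 : E n) 1) ≤ mu n (thickening η (G '' closedBall 0 1)) := by
    intro η hη
    have t1 : Tendsto (fun k => ENNReal.ofReal (1 - d k) * mu n (closedBall (0 : E n) 1)) UU
        (𝓝 (1 * mu n (closedBall (0 : E n) 1))) := by
      refine ENNReal.Tendsto.mul_const ?_ (Or.inl one_ne_zero)
      have h2 : Tendsto (fun k => 1 - d k) UU (𝓝 1) := by
        have := hdl.const_sub 1
        rwa [sub_zero] at this
      have h3 := ENNReal.tendsto_ofReal h2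
      rwa [ENNReal.ofReal_one] at h3
    rw [one_mul] at t1
    refine le_of_tendsto t1 ?_
    filter_upwards [hth η hη] with k hk
    refine (hV k).trans ?_
    have h2 : F k '' P k = (fun z => F k 0 + z) '' ((fun p => F k p - F k 0) '' P k) := by
      rw [image_image]
      refine image_congr fun p _ => ?_
      abel
    rw [h2, image_add_left, measure_preimage_add]
    refine measure_mono ?_
    rintro _ ⟨p, hp, rfl⟩
    exact hk p hp
  have hVG : mu n (closedBall (0 : E n) 1) ≤ mu n (G '' closedBall 0 1) := by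
    have t1 := tendsto_measure_thickening_of_isClosed (μ := mu n) (s := G '' closedBall (0 : E n) 1) ⟨1, one_pos, ?_⟩
      hGc.isClosed
    · refine ge_of_tendsto t1 ?_
      filter_upwards [self_mem_nhdsWithin] with η hη
      exact hVη η hη
    · exact (hGc.isBounded.thickening).measure_lt_top.ne
  have hGi := fun (u w : E n) (hu : ‖u‖ ≤ 1 / 3) (hw : ‖w‖ ≤ 1 / 3) => isom_of hGL hVG hu hw
  -- the contradiction
  have hlimu : ∀ u : ℕ → E n, (∀ k, ‖u k‖ ≤ 1 / 3) → ∃ u0 : E n, ‖u0‖ ≤ 1 / 3 ∧ Tendsto u UU (𝓝 u0) := by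
    intro u hu
    have h3 := (isCompact_closedBall (0 : E n) (1 / 3)).ultrafilter_le_nhds ((hyperfilter ℕ).map u) (by
      rw [le_principal_iff]
      show ∀ᶠ k in UU, u k ∈ closedBall (0 : E n) (1 / 3)
      exact Eventually.of_forall fun k => mem_closedBall_zero_iff.2 (hu k))
    obtain ⟨y, hy1, hy⟩ := h3
    exact ⟨y, mem_closedBall_zero_iff.1 hy1, hy⟩
  obtain ⟨u0, hu0, hul⟩ := hlimu u hu
  obtain ⟨w0, hw0, hwl⟩ := hlimu w hw
  have hinP : ∀ k (p : E n), ‖p‖ ≤ 1 / 3 → p ∈ P k := fun k p hp => hP1 k p (by linarith [hd1 k])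
  have t1 := hseq u u0 (fun k => hinP k _ (hu k)) (by linarith) hul
  have t2 := hseq w w0 (fun k => hinP k _ (hw k)) (by linarith) hwl
  have t3 : Tendsto (fun k => |‖(F k (u k) - F k 0) - (F k (w k) - F k 0)‖ - ‖u k - w k‖|) UU
      (𝓝 |‖G u0 - G w0‖ - ‖u0 - w0‖|) := ((t1.sub t2).norm.sub (hul.sub hwl).norm).abs
  rw [hGi u0 w0 hu0 hw0, sub_self, abs_zero] at t3
  obtain ⟨k, hk⟩ := (t3.eventually (gt_mem_nhds hε)).exists
  rw [sub_sub_sub_cancel_right] at hk
  linarith [huw k]

end Pool.Agent.H33.VO
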